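import Mathlib

/-!
# Selberg's mollifier on an abstract arithmetic semigroup: definitions (MP_77948b_nt)

`P` is a set of primes with norms `N p ≥ 2`; the semigroup is `G = P →₀ ℕ` written additively
(so `g + h` is the product of `g` and `h`, `g ≤ h` is divisibility, `g ⊓ h` the gcd).
Arithmetic functions are elements of `MvPowerSeries P ℝ = (G → ℝ)` with Dirichlet convolution as
multiplication.
-/

namespace Pool.Agent.AS

open Complex MeasureTheory Filter Topology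

variable {P : Type}

/-- The norm of `g`. -/
noncomputable def nm (N : P → ℕ) (g : P →₀ ℕ) : ℕ := g.prod fun p k => N p ^ k

/-- The elements of norm `≤ x`. -/
noncomputable def ball (N : P → ℕ) (x : ℝ) : Finset (P →₀ ℕ) :=
  open scoped Classical in
  if h : {g : P →₀ ℕ | (nm N g : ℝ) ≤ x}.Finite then h.toFinset else ∅

/-- `g` is divisible by no prime of `Q`. -/
def Cop (Q : Finset P) (g : P →₀ ℕ) : Prop := ∀ p ∈ Q, g p = 0

/-- `ph N Q = ∏_{p ∈ Q} (1 - 1/N p)`. -/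
noncomputable def ph (N : P → ℕ) (Q : Finset P) : ℝ := ∏ p ∈ Q, (1 - ((N p : ℝ))⁻¹)

/-- The hypotheses on the semigroup. -/
structure Good (N : P → ℕ) : Prop where
  two_le : ∀ p, 2 ≤ N p
  summable : ∀ η : ℝ, 0 < η → Summable (fun g : P →₀ ℕ => (nm N g : ℝ) ^ (-(1 + η)))
  upper : ∃ C : ℝ, ∀ η : ℝ, 0 < η → η ≤ 3 → ∑' g : P →₀ ℕ, (nm N g : ℝ) ^ (-(1 + η)) ≤ C / η
  lower : ∃ C t₁ : ℝ, 0 < C ∧ 0 < t₁ ∧ ∀ η t : ℝ, 0 < η → η ≤ 3 → |t| ≤ t₁ →
    1 ≤ C * ‖(η : ℂ) + t * I‖ * ‖∑' g : P →₀ ℕ, (nm N g : ℂ) ^ (-(1 + η + t * I) : ℂ)‖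
  cheb : ∃ C : ℝ, ∀ (x : ℝ) (F : Finset P), 1 ≤ x → (∀ p ∈ F, (N p : ℝ) ≤ x) →
    ∑ p ∈ F, Real.log (N p) ≤ C * x

/-! ### The arithmetic functions -/

/-- Coefficients of `(1-x)^{1/2}`. -/
noncomputable def hc : ℕ → ℝ
  | 0 => 1
  | (k + 1) => hc k * ((k : ℝ) - 1 / 2) / (k + 1)

/-- The constant function `1`. -/
noncomputable def one : MvPowerSeries P ℝ := fun _ => 1

/-- The Möbius function. -/
noncomputable def mu : MvPowerSeries P ℝ := fun g => g.prod fun _ k => if k = 1 then -1 else 0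

/-- The Dirichlet square root of the Möbius function. -/
noncomputable def al : MvPowerSeries P ℝ := fun g => g.prod fun _ k => hc k

/-- The von Mangoldt function. -/
noncomputable def vM (N : P → ℕ) : MvPowerSeries P ℝ :=
  fun g => if g.support.card = 1 then ∑ p ∈ g.support, Real.log (N p) else 0

/-- Selberg's coefficients `β(g) = α(g) max(0, 1 - log N g / L)`. -/
noncomputable def be (N : P → ℕ) (L : ℝ) : MvPowerSeries P ℝ :=
  fun g => al g * max 0 (1 - Real.log (nm N g) / L)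

/-- `b = 1 * β * β`. -/
noncomputable def bb (N : P → ℕ) (L : ℝ) : MvPowerSeries P ℝ := one * (be N L * be N L)

/-! ### The quadratic form -/

/-- Pairs `(k,l)` of elements of norm `≤ e^L`, coprime to `Q`. -/
noncomputable def JJ (N : P → ℕ) (L : ℝ) (Q : Finset P) : Finset ((P →₀ ℕ) × (P →₀ ℕ)) :=
  open scoped Classical in
  (ball N (Real.exp L) ×ˢ ball N (Real.exp L)).filter fun j => Cop Q j.1 ∧ Cop Q j.2

/-- `β(k) β(l) / N l`. -/
noncomputable def cc (N : P → ℕ) (L : ℝ) (j : (P →₀ ℕ) × (P →₀ ℕ)) : ℝ :=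
  be N L j.1 * be N L j.2 / nm N j.2

/-- `gcd(k l', k' l)`. -/
noncomputable def gg (j j' : (P →₀ ℕ) × (P →₀ ℕ)) : P →₀ ℕ := (j.1 + j'.2) ⊓ (j'.1 + j.2)

/-- Selberg's quadratic form. -/
noncomputable def Sq (N : P → ℕ) (L : ℝ) (Q : Finset P) (s : ℝ) : ℝ :=
  ∑ j ∈ JJ N L Q, ∑ j' ∈ JJ N L Q,
    cc N L j * cc N L j' * ((nm N (gg j j') : ℝ) / (nm N j.1 * nm N j'.1)) ^ (1 + s)

/-- `∑ β(k)β(l) N k^{-1-s} N l^{-1}` over pairs with `r ∣ kl`. -/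
noncomputable def YY (N : P → ℕ) (L : ℝ) (Q : Finset P) (s : ℝ) (r : P →₀ ℕ) : ℝ :=
  open scoped Classical in
  ∑ j ∈ (JJ N L Q).filter (fun j => r ≤ j.1 + j.2),
    be N L j.1 * be N L j.2 * (nm N j.1 : ℝ) ^ (-1 - s) * (nm N j.2 : ℝ)⁻¹

/-- Jordan type function `∏_{p^k ∥ r} (N p^{k(1+s)} - N p^{(k-1)(1+s)})`. -/
noncomputable def Jt (N : P → ℕ) (s : ℝ) (r : P →₀ ℕ) : ℝ :=
  r.prod fun p k => (N p : ℝ) ^ ((k : ℝ) * (1 + s)) - (N p : ℝ) ^ (((k : ℝ) - 1) * (1 + s))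

/-- `∑_{N g ≤ x, g coprime to R} α(g) N g^{-1-s} log(x/N g)`. -/
noncomputable def AA (N : P → ℕ) (R : Finset P) (s x : ℝ) : ℝ :=
  open scoped Classical in
  ∑ g ∈ (ball N x).filter (fun g => Cop R g),
    al g * (nm N g : ℝ) ^ (-1 - s) * Real.log (x / nm N g)

/-! ### Kernels -/

/-- Hypotheses on the kernel `k`: `∑_g k(w + log N g) = ρ e^{-w} + O(1)`. -/
structure Kern (N : P → ℕ) (k : ℝ → ℝ) (ρ : ℝ) : Prop where
  cont : Continuous k
  nonneg : ∀ w, 0 ≤ k w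
  decay : ∀ A : ℝ, 0 < A → ∃ C : ℝ, ∀ w, k w ≤ C * Real.exp (-(A * w))
  rho : 0 ≤ ρ
  poisson : ∃ C : ℝ, ∀ w : ℝ, |∑' g : P →₀ ℕ, k (w + Real.log (nm N g)) - ρ * Real.exp (-w)| ≤ C

/-- `∑_{g coprime to Q} k(w + log N g)`. -/
noncomputable def WW (N : P → ℕ) (k : ℝ → ℝ) (Q : Finset P) (w : ℝ) : ℝ :=
  open scoped Classical in
  ∑' g : P →₀ ℕ, if Cop Q g then k (w + Real.log (nm N g)) else 0

/-- The diagonal of the mean square of the density of `Λ |M|²`. -/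
noncomputable def Diag (N : P → ℕ) (k : ℝ → ℝ) (L : ℝ) (Q : Finset P) (u : ℝ) : ℝ :=
  Real.exp u * ∑ j ∈ JJ N L Q, ∑ j' ∈ JJ N L Q,
    cc N L j * cc N L j' *
      WW N k Q (u + Real.log ((nm N j.1 : ℝ) * nm N j'.1 / nm N (gg j j')))

end Pool.Agent.AS
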